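import Mathlib
import Pool.Agent.MazurC.Def

/-!
Quotients of surfaces of tridegree (2,2,2) by the involution changing three signs: definitions.
-/

namespace Pool.Agent.Enr

open MvPolynomial Topology

/-- The 14 monomials of tridegree (2,2,2) in `x, y, z` which are invariant under the involution
changing the signs of `x 1`, `y 1` and `z 1`; the first eight are the squares of the eight products
`x i * y j * z k`. -/
def mon {R : Type*} [CommRing R] (x y z : Fin 2 → R) : Fin 14 → R :=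
  ![x 0 ^ 2 * y 0 ^ 2 * z 0 ^ 2, x 1 ^ 2 * y 0 ^ 2 * z 0 ^ 2, x 0 ^ 2 * y 1 ^ 2 * z 0 ^ 2,
    x 0 ^ 2 * y 0 ^ 2 * z 1 ^ 2, x 1 ^ 2 * y 1 ^ 2 * z 0 ^ 2, x 1 ^ 2 * y 0 ^ 2 * z 1 ^ 2,
    x 0 ^ 2 * y 1 ^ 2 * z 1 ^ 2, x 1 ^ 2 * y 1 ^ 2 * z 1 ^ 2,
    x 0 * x 1 * (y 0 * y 1) * z 0 ^ 2, x 0 * x 1 * (y 0 * y 1) * z 1 ^ 2,
    x 0 * x 1 * y 0 ^ 2 * (z 0 * z 1), x 0 * x 1 * y 1 ^ 2 * (z 0 * z 1),
    x 0 ^ 2 * (y 0 * y 1) * (z 0 * z 1), x 1 ^ 2 * (y 0 * y 1) * (z 0 * z 1)]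

/-- The polynomials over `K` that vanish (at all geometric points) on the image, by the 14
invariant monomials, of the surface `∑ e, a e * mon x y z e = 0` of tridegree (2,2,2). -/
def idealY {K : Type} [Field K] (a : Fin 14 → K) : Set (MvPolynomial (Fin 14) K) :=
  {f | ∀ x y z : Fin 2 → AlgebraicClosure K,
    ∑ e, algebraMap K (AlgebraicClosure K) (a e) * mon x y z e = 0 →
      eval₂ (algebraMap K (AlgebraicClosure K)) (mon x y z) f = 0}

/-- The homogeneous polynomials over `K` vanishing on that image: equations of the image. -/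
def eqsY {K : Type} [Field K] (a : Fin 14 → K) : Set (MvPolynomial (Fin 14) K) :=
  {f | f ∈ idealY a ∧ ∃ n, f.IsHomogeneous n}

end Pool.Agent.Enr
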