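import Mathlib
import Pool.Agent.Enr.Defs
import Pool.Agent.K3M.Basic

/-!
Quotients of surfaces of tridegree (2,2,2): the parametrisation.
-/

namespace Pool.Agent.Enr

open MvPolynomial Topology Pool.Agent.K3M

/-- The linear form with coefficients `a`. -/
noncomputable def lf {K : Type} [Field K] (a : Fin 14 → K) : MvPolynomial (Fin 14) K :=
  ∑ e, C (a e) * X e

/-- The quadratic forms vanishing at all `mon x y z`, and the linear form `∑ e, a e * X e`. -/
def enr {K : Type} [Field K] (a : Fin 14 → K) : Set (MvPolynomial (Fin 14) K) :=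
  {p | p.IsHomogeneous 2 ∧ ∀ x y z : Fin 2 → K, eval (mon x y z) p = 0} ∪ {lf a}

/-- Half of the degree of the monomial in `(x 1, y 1, z 1)`. -/
def wt : Fin 14 → ℕ := ![0, 1, 1, 1, 2, 2, 2, 3, 1, 2, 1, 2, 1, 2]

/-- The monomial is the product of the Segre coordinates of indices `pa e` and `pb e`. -/
def pa : Fin 14 → Fin 8 := ![0, 4, 2, 1, 6, 5, 3, 7, 0, 1, 0, 2, 0, 4]

/-- See `pa`. -/
def pb : Fin 14 → Fin 8 := ![0, 4, 2, 1, 6, 5, 3, 7, 6, 7, 5, 7, 3, 7]

/-- The twisted parametrisation. -/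
def ps {R : Type*} [CommRing R] (d : R) (w : Fin 8 → R) : Fin 14 → R :=
  fun e => d ^ wt e * (w (pa e) * w (pb e))

/-- Pulling back along the twisted parametrisation. -/
noncomputable def pull {K : Type} [Field K] (d : K) (p : MvPolynomial (Fin 14) K) :
    MvPolynomial (Fin 8) K :=
  aeval (fun e => C (d ^ wt e) * (X (pa e) * X (pb e))) p

section Ring

variable {R : Type*} [CommRing R]

theorem ps_seg (s : R) (x y z : Fin 2 → R) :
    ps (s ^ 2) (seg x y z) = mon ![x 0, s * x 1] ![y 0, s * y 1] ![z 0, s * z 1] := by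
  funext e
  fin_cases e <;> simp [ps, seg, mon, wt, pa, pb] <;> ring

theorem ps_seg_sq (d t : R) (x y z : Fin 2 → R) :
    ps (d * t ^ 2) (seg x y z) = ps d (seg ![x 0, t * x 1] ![y 0, t * y 1] ![z 0, t * z 1]) := by
  funext e
  fin_cases e <;> simp [ps, seg, wt, pa, pb] <;> ring

theorem ps_smul (d t : R) (w : Fin 8 → R) : ps d (t • w) = t ^ 2 • ps d w := by
  funext e
  simp only [ps, Pi.smul_apply, smul_eq_mul]
  ring

theorem ps_map {S : Type*} [CommRing S] (φ : R →+* S) (d : R) (w : Fin 8 → R) :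
    ps (φ d) (fun l => φ (w l)) = fun e => φ (ps d w e) := by
  funext e
  simp [ps]

theorem mon_map {S : Type*} [CommRing S] (φ : R →+* S) (x y z : Fin 2 → R) :
    mon (fun i => φ (x i)) (fun i => φ (y i)) (fun i => φ (z i)) = fun e => φ (mon x y z e) := by
  funext e
  fin_cases e <;> simp [mon]

/-- The two values of a coordinate exchanged. -/
def sw (x : Fin 2 → R) : Fin 2 → R := ![x 1, x 0]

/-- The effect of the exchange in the first factor on the monomials. -/
def fl0 : Fin 14 → Fin 14 := ![1, 0, 4, 5, 2, 3, 7, 6, 8, 9, 10, 11, 13, 12]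

/-- The effect of the exchange in the second factor on the monomials. -/
def fl1 : Fin 14 → Fin 14 := ![2, 4, 0, 6, 1, 7, 3, 5, 8, 9, 11, 10, 12, 13]

/-- The effect of the exchange in the third factor on the monomials. -/
def fl2 : Fin 14 → Fin 14 := ![3, 5, 6, 0, 7, 1, 2, 4, 9, 8, 10, 11, 12, 13]

theorem mon_fl0 (x y z : Fin 2 → R) (e : Fin 14) : mon (sw x) y z e = mon x y z (fl0 e) := by
  fin_cases e <;> simp [mon, sw, fl0] <;> ring

theorem mon_fl1 (x y z : Fin 2 → R) (e : Fin 14) : mon x (sw y) z e = mon x y z (fl1 e) := by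
  fin_cases e <;> simp [mon, sw, fl1] <;> ring

theorem mon_fl2 (x y z : Fin 2 → R) (e : Fin 14) : mon x y (sw z) e = mon x y z (fl2 e) := by
  fin_cases e <;> simp [mon, sw, fl2] <;> ring

theorem fl0_fl0 (e : Fin 14) : fl0 (fl0 e) = e := by revert e; decide

theorem fl1_fl1 (e : Fin 14) : fl1 (fl1 e) = e := by revert e; decide

theorem fl2_fl2 (e : Fin 14) : fl2 (fl2 e) = e := by revert e; decide

end Ring

section Points

variable {Ω : Type*} [Field Ω]

theorem ps_fl0 {d : Ω} (hd : d ≠ 0) (x y z : Fin 2 → Ω) (e : Fin 14) :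
    ps d (seg x y z) (fl0 e) = d * ps d (seg ![x 1, x 0 / d] y z) e := by
  fin_cases e <;> simp [ps, seg, wt, pa, pb, fl0] <;> field_simp <;> try simp

theorem ps_fl1 {d : Ω} (hd : d ≠ 0) (x y z : Fin 2 → Ω) (e : Fin 14) :
    ps d (seg x y z) (fl1 e) = d * ps d (seg x ![y 1, y 0 / d] z) e := by
  fin_cases e <;> simp [ps, seg, wt, pa, pb, fl1] <;> field_simp <;> try simp

theorem ps_fl2 {d : Ω} (hd : d ≠ 0) (x y z : Fin 2 → Ω) (e : Fin 14) :
    ps d (seg x y z) (fl2 e) = d * ps d (seg x y ![z 1, z 0 / d]) e := by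
  fin_cases e <;> simp [ps, seg, wt, pa, pb, fl2] <;> field_simp <;> try simp

/-- The binomial relations between the even monomials. -/
def Rel (K : Type) [Field K] (u : Fin 14 → Ω) : Prop :=
  ∀ a b c d : Fin 14, (∀ x y z : Fin 2 → K,
    mon x y z a * mon x y z b = mon x y z c * mon x y z d) → u a * u b = u c * u d

/-- A multiple of a value of the twisted parametrisation. -/
def Rep (u : Fin 14 → Ω) : Prop :=
  ∃ (c d : Ω) (x y z : Fin 2 → Ω), c ≠ 0 ∧ d ≠ 0 ∧ x ≠ 0 ∧ y ≠ 0 ∧ z ≠ 0 ∧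
    u = c • ps d (seg x y z)

theorem sw_ne_zero {x : Fin 2 → Ω} (hx : x ≠ 0) {d : Ω} (hd : d ≠ 0) :
    (![x 1, x 0 / d] : Fin 2 → Ω) ≠ 0 := by
  intro h
  apply hx
  have h0 : x 1 = 0 := by simpa using congrFun h 0
  have h1 : x 0 = 0 := by
    have := congrFun h 1
    simpa [hd] using this
  funext i
  fin_cases i
  · exact h1
  · exact h0

theorem Rep.fl0 {u : Fin 14 → Ω} (h : Rep (fun e => u (fl0 e))) : Rep u := by
  obtain ⟨c, d, x, y, z, hc, hd, hx, hy, hz, hu⟩ := h
  refine ⟨c * d, d, ![x 1, x 0 / d], y, z, mul_ne_zero hc hd, hd, sw_ne_zero hx hd, hy, hz, ?_⟩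
  funext e
  have h1 := congrFun hu (Enr.fl0 e)
  simp only [fl0_fl0, Pi.smul_apply, smul_eq_mul] at h1
  rw [h1, ps_fl0 hd, Pi.smul_apply, smul_eq_mul]
  ring

theorem Rep.fl1 {u : Fin 14 → Ω} (h : Rep (fun e => u (fl1 e))) : Rep u := by
  obtain ⟨c, d, x, y, z, hc, hd, hx, hy, hz, hu⟩ := h
  refine ⟨c * d, d, x, ![y 1, y 0 / d], z, mul_ne_zero hc hd, hd, hx, sw_ne_zero hy hd, hz, ?_⟩
  funext e
  have h1 := congrFun hu (Enr.fl1 e)
  simp only [fl1_fl1, Pi.smul_apply, smul_eq_mul] at h1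
  rw [h1, ps_fl1 hd, Pi.smul_apply, smul_eq_mul]
  ring

theorem Rep.fl2 {u : Fin 14 → Ω} (h : Rep (fun e => u (fl2 e))) : Rep u := by
  obtain ⟨c, d, x, y, z, hc, hd, hx, hy, hz, hu⟩ := h
  refine ⟨c * d, d, x, y, ![z 1, z 0 / d], mul_ne_zero hc hd, hd, hx, hy, sw_ne_zero hz hd, ?_⟩
  funext e
  have h1 := congrFun hu (Enr.fl2 e)
  simp only [fl2_fl2, Pi.smul_apply, smul_eq_mul] at h1
  rw [h1, ps_fl2 hd, Pi.smul_apply, smul_eq_mul]
  ring

variable {K : Type} [Field K]

theorem Rel.fl0 {u : Fin 14 → Ω} (h : Rel K u) : Rel K (fun e => u (fl0 e)) := by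
  intro a b c d habcd
  refine h _ _ _ _ fun x y z => ?_
  have := habcd (sw x) y z
  rwa [mon_fl0, mon_fl0, mon_fl0, mon_fl0] at this

theorem Rel.fl1 {u : Fin 14 → Ω} (h : Rel K u) : Rel K (fun e => u (fl1 e)) := by
  intro a b c d habcd
  refine h _ _ _ _ fun x y z => ?_
  have := habcd x (sw y) z
  rwa [mon_fl1, mon_fl1, mon_fl1, mon_fl1] at this

theorem Rel.fl2 {u : Fin 14 → Ω} (h : Rel K u) : Rel K (fun e => u (fl2 e)) := by
  intro a b c d habcd
  refine h _ _ _ _ fun x y z => ?_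
  have := habcd x y (sw z)
  rwa [mon_fl2, mon_fl2, mon_fl2, mon_fl2] at this

/-- The main case of the description of the points. -/
theorem rep_of_zero {u : Fin 14 → Ω} (h : Rel K u) (h0 : u 0 ≠ 0) : Rep u := by
  have r4 : u 4 * u 0 = u 1 * u 2 := h 4 0 1 2 (by intro x y z; simp only [mon]; simp; ring)
  have r5 : u 5 * u 0 = u 1 * u 3 := h 5 0 1 3 (by intro x y z; simp only [mon]; simp; ring)
  have r6 : u 6 * u 0 = u 2 * u 3 := h 6 0 2 3 (by intro x y z; simp only [mon]; simp; ring)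
  have r7 : u 7 * u 0 = u 4 * u 3 := h 7 0 4 3 (by intro x y z; simp only [mon]; simp; ring)
  have r9 : u 9 * u 0 = u 8 * u 3 := h 9 0 8 3 (by intro x y z; simp only [mon]; simp; ring)
  have r11 : u 11 * u 0 = u 10 * u 2 := h 11 0 10 2 (by intro x y z; simp only [mon]; simp; ring)
  have r13 : u 13 * u 0 = u 12 * u 1 := h 13 0 12 1 (by intro x y z; simp only [mon]; simp; ring)
  have s8 : u 8 * u 8 = u 1 * u 2 := h 8 8 1 2 (by intro x y z; simp only [mon]; simp; ring)
  have s10 : u 10 * u 10 = u 1 * u 3 := h 10 10 1 3 (by intro x y z; simp only [mon]; simp; ring)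
  have s12 : u 12 * u 12 = u 2 * u 3 := h 12 12 2 3 (by intro x y z; simp only [mon]; simp; ring)
  have t1 : u 8 * u 10 = u 1 * u 12 := h 8 10 1 12 (by intro x y z; simp only [mon]; simp; ring)
  have t2 : u 8 * u 12 = u 2 * u 10 := h 8 12 2 10 (by intro x y z; simp only [mon]; simp; ring)
  have t3 : u 10 * u 12 = u 3 * u 8 := h 10 12 3 8 (by intro x y z; simp only [mon]; simp; ring)
  by_cases h1 : u 1 = 0
  · have e8 : u 8 = 0 := by
      rw [h1, zero_mul] at s8
      exact mul_self_eq_zero.1 s8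
    have e10 : u 10 = 0 := by
      rw [h1, zero_mul] at s10
      exact mul_self_eq_zero.1 s10
    have e4 : u 4 = 0 := by
      rw [h1, zero_mul] at r4
      exact (mul_eq_zero.1 r4).resolve_right h0
    have e5 : u 5 = 0 := by
      rw [h1, zero_mul] at r5
      exact (mul_eq_zero.1 r5).resolve_right h0
    have e7 : u 7 = 0 := by
      rw [e4, zero_mul] at r7
      exact (mul_eq_zero.1 r7).resolve_right h0
    have e9 : u 9 = 0 := by
      rw [e8, zero_mul] at r9
      exact (mul_eq_zero.1 r9).resolve_right h0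
    have e11 : u 11 = 0 := by
      rw [e10, zero_mul] at r11
      exact (mul_eq_zero.1 r11).resolve_right h0
    have e13 : u 13 = 0 := by
      rw [h1, mul_zero] at r13
      exact (mul_eq_zero.1 r13).resolve_right h0
    by_cases h2 : u 2 = 0
    · have e12 : u 12 = 0 := by
        rw [h2, zero_mul] at s12
        exact mul_self_eq_zero.1 s12
      have e6 : u 6 = 0 := by
        rw [h2, zero_mul] at r6
        exact (mul_eq_zero.1 r6).resolve_right h0
      by_cases h3 : u 3 = 0
      · refine ⟨u 0, 1, ![1, 0], ![1, 0], ![1, 0], h0, one_ne_zero, ?_, ?_, ?_, ?_⟩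
        · intro h; simpa using congrFun h 0
        · intro h; simpa using congrFun h 0
        · intro h; simpa using congrFun h 0
        · funext e
          fin_cases e <;>
            simp [ps, seg, wt, pa, pb, h1, h2, h3, e4, e5, e6, e7, e8, e9, e10, e11, e12, e13]
      · refine ⟨u 0, u 3 / u 0, ![1, 0], ![1, 0], ![1, 1], h0, div_ne_zero h3 h0, ?_, ?_, ?_, ?_⟩
        · intro h; simpa using congrFun h 0
        · intro h; simpa using congrFun h 0
        · intro h; simpa using congrFun h 0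
        · funext e
          fin_cases e <;>
            simp [ps, seg, wt, pa, pb, h1, h2, e4, e5, e6, e7, e8, e9, e10, e11, e12, e13] <;>
            field_simp
    · refine ⟨u 0, u 2 / u 0, ![1, 0], ![1, 1], ![1, u 12 / u 2], h0, div_ne_zero h2 h0,
        ?_, ?_, ?_, ?_⟩
      · intro h; simpa using congrFun h 0
      · intro h; simpa using congrFun h 0
      · intro h; simpa using congrFun h 0
      · funext e
        fin_cases e <;>
          simp [ps, seg, wt, pa, pb, h1, e4, e5, e7, e8, e9, e10, e11, e13] <;>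
          field_simp
        · linear_combination -s12
        · linear_combination r6 - s12
  · have p3 : u 3 = u 10 ^ 2 / u 1 := by
      field_simp
      linear_combination -s10
    have p2 : u 2 = u 8 ^ 2 / u 1 := by
      field_simp
      linear_combination -s8
    have p12 : u 12 = u 8 * u 10 / u 1 := by
      field_simp
      linear_combination -t1
    have p4 : u 4 = u 8 ^ 2 / u 0 := by
      field_simp
      linear_combination r4 - s8
    have p5 : u 5 = u 10 ^ 2 / u 0 := by
      field_simp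
      linear_combination r5 - s10
    have p6 : u 6 = u 8 ^ 2 * u 10 ^ 2 / (u 0 * u 1 ^ 2) := by
      rw [p2, p3] at r6
      field_simp at r6 ⊢
      linear_combination r6
    have p7 : u 7 = u 8 ^ 2 * u 10 ^ 2 / (u 0 ^ 2 * u 1) := by
      rw [p4, p3] at r7
      field_simp at r7 ⊢
      linear_combination r7
    have p9 : u 9 = u 8 * u 10 ^ 2 / (u 0 * u 1) := by
      rw [p3] at r9
      field_simp at r9 ⊢
      linear_combination r9
    have p11 : u 11 = u 8 ^ 2 * u 10 / (u 0 * u 1) := by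
      rw [p2] at r11
      field_simp at r11 ⊢
      linear_combination r11
    have p13 : u 13 = u 8 * u 10 / u 0 := by
      rw [p12] at r13
      field_simp at r13 ⊢
      linear_combination r13
    refine ⟨u 0, u 1 / u 0, ![1, 1], ![1, u 8 / u 1], ![1, u 10 / u 1], h0, div_ne_zero h1 h0,
      ?_, ?_, ?_, ?_⟩
    · intro h; simpa using congrFun h 0
    · intro h; simpa using congrFun h 0
    · intro h; simpa using congrFun h 0
    · clear r4 r5 r6 r7 r9 r11 r13 s8 s10 s12 t1 t2 t3 h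
      funext e
      fin_cases e <;> simp [ps, seg, wt, pa, pb]
      · field_simp
      · rw [p2]; field_simp
      · rw [p3]; field_simp
      · rw [p4]; field_simp
      · rw [p5]; field_simp
      · rw [p6]; field_simp
      · rw [p7]; field_simp
      · field_simp
      · rw [p9]; field_simp
      · field_simp
      · rw [p11]; field_simp
      · rw [p12]; field_simp
      · rw [p13]; field_simp

/-- One of the squares is not zero. -/
theorem corner_ne {u : Fin 14 → Ω} (h : Rel K u) (hu : u ≠ 0) :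
    u 0 ≠ 0 ∨ u 1 ≠ 0 ∨ u 2 ≠ 0 ∨ u 3 ≠ 0 ∨ u 4 ≠ 0 ∨ u 5 ≠ 0 ∨ u 6 ≠ 0 ∨ u 7 ≠ 0 := by
  by_contra hcon
  push Not at hcon
  obtain ⟨h0, h1, h2, h3, h4, h5, h6, h7⟩ := hcon
  have s8 : u 8 * u 8 = u 1 * u 2 := h 8 8 1 2 (by intro x y z; simp only [mon]; simp; ring)
  have s9 : u 9 * u 9 = u 5 * u 6 := h 9 9 5 6 (by intro x y z; simp only [mon]; simp; ring)
  have s10 : u 10 * u 10 = u 1 * u 3 := h 10 10 1 3 (by intro x y z; simp only [mon]; simp; ring)
  have s11 : u 11 * u 11 = u 4 * u 6 := h 11 11 4 6 (by intro x y z; simp only [mon]; simp; ring)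
  have s12 : u 12 * u 12 = u 2 * u 3 := h 12 12 2 3 (by intro x y z; simp only [mon]; simp; ring)
  have s13 : u 13 * u 13 = u 4 * u 5 := h 13 13 4 5 (by intro x y z; simp only [mon]; simp; ring)
  rw [h1, zero_mul] at s8
  rw [h5, zero_mul] at s9
  rw [h1, zero_mul] at s10
  rw [h4, zero_mul] at s11
  rw [h2, zero_mul] at s12
  rw [h4, zero_mul] at s13
  have s8 := mul_self_eq_zero.1 s8
  have s9 := mul_self_eq_zero.1 s9
  have s10 := mul_self_eq_zero.1 s10
  have s11 := mul_self_eq_zero.1 s11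
  have s12 := mul_self_eq_zero.1 s12
  have s13 := mul_self_eq_zero.1 s13
  apply hu
  funext e
  fin_cases e
  · exact h0
  · exact h1
  · exact h2
  · exact h3
  · exact h4
  · exact h5
  · exact h6
  · exact h7
  · exact s8
  · exact s9
  · exact s10
  · exact s11
  · exact s12
  · exact s13

/-- Every nonzero vector satisfying the binomial relations is a multiple of a value of the twisted
parametrisation. -/
theorem rep_of_rel {u : Fin 14 → Ω} (h : Rel K u) (hu : u ≠ 0) : Rep u := by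
  rcases corner_ne h hu with h0 | h0 | h0 | h0 | h0 | h0 | h0 | h0
  · exact rep_of_zero h h0
  · exact Rep.fl0 (rep_of_zero h.fl0 h0)
  · exact Rep.fl1 (rep_of_zero h.fl1 h0)
  · exact Rep.fl2 (rep_of_zero h.fl2 h0)
  · exact Rep.fl0 (Rep.fl1 (rep_of_zero h.fl0.fl1 h0))
  · exact Rep.fl0 (Rep.fl2 (rep_of_zero h.fl0.fl2 h0))
  · exact Rep.fl1 (Rep.fl2 (rep_of_zero h.fl1.fl2 h0))
  · exact Rep.fl0 (Rep.fl1 (Rep.fl2 (rep_of_zero h.fl0.fl1.fl2 h0)))

end Points

end Pool.Agent.Enr
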