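import Mathlib
import Pool.Agent.Enr.Basic

/-!
Quotients of surfaces of tridegree (2,2,2): polynomials and their pull-backs.
-/

namespace Pool.Agent.Enr

open MvPolynomial Topology Pool.Agent.K3M

section Poly

variable {K : Type} [Field K]

theorem eval₂_pull {S : Type*} [CommRing S] (φ : K →+* S) (d : K) (w : Fin 8 → S)
    (p : MvPolynomial (Fin 14) K) :
    eval₂ φ w (pull d p) = eval₂ φ (ps (φ d) w) p := by
  rw [pull, ← coe_eval₂Hom, ← coe_eval₂Hom, aeval_def, ← coe_eval₂Hom, ← RingHom.comp_apply]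
  congr 1
  apply ringHom_ext
  · intro r; simp [algebraMap_eq]
  · intro l; simp [ps]

theorem eval_pull (d : K) (w : Fin 8 → K) (p : MvPolynomial (Fin 14) K) :
    eval w (pull d p) = eval (ps d w) p :=
  eval₂_pull (RingHom.id K) d w p

theorem lf_hom (a : Fin 14 → K) : (lf a).IsHomogeneous 1 := by
  refine IsHomogeneous.sum _ _ _ fun e _ => ?_
  simpa using (isHomogeneous_C (Fin 14) (a e)).mul (isHomogeneous_X K e)

theorem pull_hom (d : K) {p : MvPolynomial (Fin 14) K} {n : ℕ} (hp : p.IsHomogeneous n) :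
    (pull d p).IsHomogeneous (2 * n) := by
  refine hp.aeval _ (n := 2) (fun e => ?_)
  have := (isHomogeneous_C (Fin 8) (d ^ wt e)).mul
    ((isHomogeneous_X K (pa e)).mul (isHomogeneous_X K (pb e)))
  simpa using this

/-- The equation of the twist by `d`. -/
noncomputable def gd (a : Fin 14 → K) (d : K) : MvPolynomial (Fin 8) K := pull d (lf a)

theorem gd_hom (a : Fin 14 → K) (d : K) : (gd a d).IsHomogeneous 2 := by
  simpa [gd] using pull_hom d (lf_hom a)

theorem eval₂_lf {S : Type*} [CommRing S] (φ : K →+* S) (a : Fin 14 → K) (u : Fin 14 → S) :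
    eval₂ φ u (lf a) = ∑ e, φ (a e) * u e := by
  rw [lf, ← coe_eval₂Hom, map_sum]
  simp

theorem eval₂_gd {S : Type*} [CommRing S] (φ : K →+* S) (a : Fin 14 → K) (d : K)
    (w : Fin 8 → S) : eval₂ φ w (gd a d) = ∑ e, φ (a e) * ps (φ d) w e := by
  rw [gd, eval₂_pull, eval₂_lf]

theorem eval_gd (a : Fin 14 → K) (d : K) (w : Fin 8 → K) :
    eval w (gd a d) = ∑ e, a e * ps d w e := eval₂_gd (RingHom.id K) a d w

theorem eval₂_smul_hom {S : Type*} [CommRing S] (φ : K →+* S) {ι : Type*}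
    {p : MvPolynomial ι K} {n : ℕ} (hp : p.IsHomogeneous n) (c : S) (u : ι → S) :
    eval₂ φ (c • u) p = c ^ n * eval₂ φ u p := by
  rw [eval₂_eq_eval_map, eval₂_eq_eval_map]
  exact Pool.Agent.MazurC.eval_smul_hom (hp.map φ) c u

theorem enr_hom {a : Fin 14 → K} {g : MvPolynomial (Fin 14) K} (hg : g ∈ enr a) :
    ∃ n, n ≠ 0 ∧ g.IsHomogeneous n := by
  rcases hg with hg | hg
  · exact ⟨2, two_ne_zero, hg.1⟩
  · rw [Set.mem_singleton_iff.1 hg]; exact ⟨1, one_ne_zero, lf_hom a⟩

theorem eval₂_genmon {T : Type*} [CommRing T] (ψ : K →+* T) (v : Fin 3 × Fin 2 → T)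
    (p : MvPolynomial (Fin 14) K) :
    eval₂ ψ v (eval₂ C (mon (fun a => (X (0, a) : MvPolynomial (Fin 3 × Fin 2) K))
        (fun a => X (1, a)) (fun a => X (2, a))) p)
      = eval₂ ψ (mon (fun a => v (0, a)) (fun a => v (1, a)) (fun a => v (2, a))) p := by
  rw [← coe_eval₂Hom, ← coe_eval₂Hom, ← coe_eval₂Hom, ← RingHom.comp_apply]
  congr 1
  apply ringHom_ext
  · intro r; simp
  · intro l
    have h := congrFun (mon_map (eval₂Hom ψ v)
      (fun a => (X (0, a) : MvPolynomial (Fin 3 × Fin 2) K)) (fun a => X (1, a))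
      (fun a => X (2, a))) l
    simp only [coe_eval₂Hom, eval₂_X] at h
    simp only [RingHom.comp_apply, coe_eval₂Hom, eval₂_X]
    exact h.symm

/-- Identities between values of the even monomials over an infinite field are universal. -/
theorem eval₂_mon_zero [Infinite K] {S : Type*} [CommRing S] (φ : K →+* S)
    {p : MvPolynomial (Fin 14) K}
    (hp : ∀ x y z : Fin 2 → K, eval (mon x y z) p = 0) (x y z : Fin 2 → S) :
    eval₂ φ (mon x y z) p = 0 := by
  have h0 : eval₂ C (mon (fun a => (X (0, a) : MvPolynomial (Fin 3 × Fin 2) K))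
        (fun a => X (1, a)) (fun a => X (2, a))) p = (0 : MvPolynomial (Fin 3 × Fin 2) K) := by
    apply MvPolynomial.funext
    intro v
    rw [map_zero]
    exact (eval₂_genmon (RingHom.id K) v p).trans (hp _ _ _)
  have h1 := eval₂_genmon φ (fun q => (![x, y, z] : Fin 3 → Fin 2 → S) q.1 q.2) p
  rw [h0] at h1
  have h2 : eval₂ φ (fun q => (![x, y, z] : Fin 3 → Fin 2 → S) q.1 q.2)
      (0 : MvPolynomial (Fin 3 × Fin 2) K) = 0 := eval₂_zero _ _
  rw [h2] at h1
  exact h1.symm

/-- The quadratic forms vanishing at the even monomials vanish at the twisted ones. -/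
theorem eval₂_ps_zero [Infinite K] {Ω : Type*} [Field Ω] [IsAlgClosed Ω] (φ : K →+* Ω)
    {p : MvPolynomial (Fin 14) K}
    (hp : ∀ x y z : Fin 2 → K, eval (mon x y z) p = 0) (d : Ω) (x y z : Fin 2 → Ω) :
    eval₂ φ (ps d (seg x y z)) p = 0 := by
  obtain ⟨s, hs⟩ := IsAlgClosed.exists_pow_nat_eq d (n := 2) (by norm_num)
  rw [← hs, ps_seg]
  exact eval₂_mon_zero φ hp _ _ _

theorem eval_ps_zero [Infinite K] {p : MvPolynomial (Fin 14) K}
    (hp : ∀ x y z : Fin 2 → K, eval (mon x y z) p = 0) (d : K) (x y z : Fin 2 → K) :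
    eval (ps d (seg x y z)) p = 0 := by
  have h1 := eval₂_ps_zero (ac K) hp (ac K d) (fun i => ac K (x i)) (fun i => ac K (y i))
    (fun i => ac K (z i))
  have h2 : seg (fun i => ac K (x i)) (fun i => ac K (y i)) (fun i => ac K (z i))
      = fun l => ac K (seg x y z l) := by
    rw [← segp_one, ← segp_one, segp_map]
  rw [h2, ps_map] at h1
  have h3 : eval₂ (ac K) (fun e => ac K (ps d (seg x y z) e)) p
      = ac K (eval (ps d (seg x y z)) p) :=
    Pool.Agent.MazurC.eval₂_comp_gen _ _ _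
  rw [h3] at h1
  exact (map_eq_zero (ac K)).1 h1

end Poly

end Pool.Agent.Enr
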