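import Mathlib
import Pool.Agent.Enr.Basic
import Pool.Agent.AbcE.Selmer

/-!
Quotients of surfaces of tridegree (2,2,2): finitely many twists.
-/

namespace Pool.Agent.Enr

open NumberField IsDedekindDomain Pool.Agent.K3M Pool.Agent.H7.Abc Pool.Agent.AbcE

/-- The first of the two squares whose product is the square of a monomial. -/
def ta : Fin 14 → Fin 2 × Fin 2 × Fin 2 :=
  ![(0, 0, 0), (1, 0, 0), (0, 1, 0), (0, 0, 1), (1, 1, 0), (1, 0, 1), (0, 1, 1), (1, 1, 1),
    (1, 0, 0), (1, 0, 1), (1, 0, 0), (1, 1, 0), (0, 1, 0), (1, 1, 0)]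

/-- The second of the two squares whose product is the square of a monomial. -/
def tb : Fin 14 → Fin 2 × Fin 2 × Fin 2 :=
  ![(0, 0, 0), (1, 0, 0), (0, 1, 0), (0, 0, 1), (1, 1, 0), (1, 0, 1), (0, 1, 1), (1, 1, 1),
    (0, 1, 0), (0, 1, 1), (0, 0, 1), (0, 1, 1), (0, 0, 1), (1, 0, 1)]

theorem exists_corner (t : Fin 2 × Fin 2 × Fin 2) :
    ∃ e : Fin 14, (e : ℕ) < 8 ∧ ta e = t ∧ tb e = t ∧ ∀ e', ta e' = t → tb e' = t → e' = e := by
  revert t
  decide

/-- The weighted square of a coordinate. -/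
def qf {R : Type*} [CommRing R] (d : R) (x : Fin 2 → R) (i : Fin 2) : R :=
  d ^ (i : ℕ) * x i ^ 2

theorem ps_sq {R : Type*} [CommRing R] (d : R) (x y z : Fin 2 → R) (e : Fin 14) :
    ps d (seg x y z) e ^ 2 =
      (qf d x (ta e).1 * qf d y (ta e).2.1 * qf d z (ta e).2.2) *
        (qf d x (tb e).1 * qf d y (tb e).2.1 * qf d z (tb e).2.2) := by
  fin_cases e <;> simp [ps, seg, wt, pa, pb, ta, tb, qf] <;> ring

section Order

variable {Γ : Type*} [LinearOrderedCommGroupWithZero Γ]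

theorem mul3_lt {α α' β β' γ γ' : Γ} (h1 : α < α') (h2 : β ≤ β') (h3 : γ ≤ γ') (hβ : β' ≠ 0)
    (hγ : γ' ≠ 0) : α * β * γ < α' * β' * γ' := by
  have h4 : α * β * γ ≤ α * β' * γ' := mul_le_mul' (mul_le_mul' le_rfl h2) h3
  refine h4.trans_lt ?_
  have h5 : α * β' < α' * β' := mul_lt_mul_of_pos_right h1 (zero_lt_iff.2 hβ)
  exact mul_lt_mul_of_pos_right h5 (zero_lt_iff.2 hγ)

theorem unique_max {A B C : Fin 2 → Γ} {i j k : Fin 2} (hA : ∀ i', i' ≠ i → A i' < A i)
    (hB : ∀ j', j' ≠ j → B j' < B j) (hC : ∀ k', k' ≠ k → C k' < C k)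
    (t : Fin 2 × Fin 2 × Fin 2) (ht : t ≠ (i, j, k)) :
    A t.1 * B t.2.1 * C t.2.2 < A i * B j * C k := by
  have hA0 : A i ≠ 0 := by
    obtain ⟨i', hi'⟩ := exists_ne i
    exact (zero_le.trans_lt (hA i' hi')).ne'
  have hB0 : B j ≠ 0 := by
    obtain ⟨i', hi'⟩ := exists_ne j
    exact (zero_le.trans_lt (hB i' hi')).ne'
  have hC0 : C k ≠ 0 := by
    obtain ⟨i', hi'⟩ := exists_ne k
    exact (zero_le.trans_lt (hC i' hi')).ne'
  have hA' : ∀ i', A i' ≤ A i := fun i' => by
    by_cases h : i' = i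
    · rw [h]
    · exact (hA i' h).le
  have hB' : ∀ i', B i' ≤ B j := fun i' => by
    by_cases h : i' = j
    · rw [h]
    · exact (hB i' h).le
  have hC' : ∀ i', C i' ≤ C k := fun i' => by
    by_cases h : i' = k
    · rw [h]
    · exact (hC i' h).le
  obtain ⟨i', j', k'⟩ := t
  simp only
  by_cases h1 : i' = i
  · by_cases h2 : j' = j
    · have h3 : k' ≠ k := by
        rintro rfl
        exact ht (by rw [h1, h2])
      have := mul3_lt (hC k' h3) (hB' j') (hA' i') hB0 hA0
      calc A i' * B j' * C k' = C k' * B j' * A i' := by rw [mul_comm, mul_comm (A i'), mul_assoc]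
        _ < C k * B j * A i := this
        _ = A i * B j * C k := by rw [mul_comm, mul_comm (C k), mul_assoc]
    · have := mul3_lt (hB j' h2) (hA' i') (hC' k') hA0 hC0
      calc A i' * B j' * C k' = B j' * A i' * C k' := by rw [mul_comm (A i')]
        _ < B j * A i * C k := this
        _ = A i * B j * C k := by rw [mul_comm (A i)]
  · exact mul3_lt (hA i' h1) (hB' j') (hC' k') hB0 hC0

end Order

variable {K : Type} [Field K] [NumberField K]

theorem qf_ne (v : HeightOneSpectrum (𝓞 K)) {d : K} (hd : d ≠ 0) (hodd : ¬ (2 : ℤ) ∣ ord v d)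
    {x : Fin 2 → K} (hx : x ≠ 0) :
    ∃ i : Fin 2, ∀ i', i' ≠ i → v.valuation K (qf d x i') < v.valuation K (qf d x i) := by
  have hne : v.valuation K (qf d x 0) ≠ v.valuation K (qf d x 1) := by
    intro h
    have e0 : qf d x 0 = x 0 ^ 2 := by simp [qf]
    have e1 : qf d x 1 = d * x 1 ^ 2 := by simp [qf]
    rw [e0, e1] at h
    have h1 : x 1 ≠ 0 := by
      intro h1
      rw [h1] at h
      have h0 : x 0 = 0 := by simpa using h
      apply hx
      funext i
      fin_cases i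
      · exact h0
      · exact h1
    have h0 : x 0 ≠ 0 := by
      intro h0
      rw [h0] at h
      have h2 : d * x 1 ^ 2 = 0 := by
        have : v.valuation K (d * x 1 ^ 2) = 0 := by rw [← h]; simp
        exact (Valuation.zero_iff _).1 this
      exact (mul_ne_zero hd (pow_ne_zero 2 h1)) h2
    have h3 : ord v (x 0 ^ 2) = ord v (d * x 1 ^ 2) := by
      unfold ord
      rw [h]
    rw [SelmerAux.ord_pow v h0, SelmerAux.ord_mul v hd (pow_ne_zero 2 h1),
      SelmerAux.ord_pow v h1] at h3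
    apply hodd
    refine ⟨ord v (x 0) - ord v (x 1), ?_⟩
    push_cast at h3
    linarith
  rcases lt_or_gt_of_ne hne with h | h
  · refine ⟨1, fun i' hi' => ?_⟩
    have : i' = 0 := by
      fin_cases i'
      · rfl
      · exact absurd rfl hi'
    rw [this]; exact h
  · refine ⟨0, fun i' hi' => ?_⟩
    have : i' = 1 := by
      fin_cases i'
      · exact absurd rfl hi'
      · rfl
    rw [this]; exact h

/-- At a rational point of the twist by `d` the exponents of `d` are even outside the primes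
dividing the coefficients. -/
theorem even_ord {a : Fin 14 → K} (v : HeightOneSpectrum (𝓞 K))
    (h1 : ∀ e, v.valuation K (a e) ≤ 1) (h2 : ∀ e : Fin 14, (e : ℕ) < 8 → v.valuation K (a e) = 1)
    {d : K} (hd : d ≠ 0) {x y z : Fin 2 → K} (hx : x ≠ 0) (hy : y ≠ 0) (hz : z ≠ 0)
    (h0 : ∑ e, a e * ps d (seg x y z) e = 0) : (2 : ℤ) ∣ ord v d := by
  classical
  by_contra hodd
  obtain ⟨i, hi⟩ := qf_ne v hd hodd hx
  obtain ⟨j, hj⟩ := qf_ne v hd hodd hy
  obtain ⟨k, hk⟩ := qf_ne v hd hodd hz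
  obtain ⟨e, he8, hta, htb, huniq⟩ := exists_corner (i, j, k)
  set V := v.valuation K with hV
  set m := V (qf d x i) * V (qf d y j) * V (qf d z k) with hm
  have hmax : ∀ t : Fin 2 × Fin 2 × Fin 2, t ≠ (i, j, k) →
      V (qf d x t.1) * V (qf d y t.2.1) * V (qf d z t.2.2) < m := fun t ht =>
    unique_max (A := fun i => V (qf d x i)) (B := fun i => V (qf d y i))
      (C := fun i => V (qf d z i)) hi hj hk t ht
  have hm0 : m ≠ 0 := by
    obtain ⟨i', hi'⟩ := exists_ne i
    exact (zero_le.trans_lt (hmax (i', j, k) (by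
      intro h
      exact hi' (Prod.ext_iff.1 h).1))).ne'
  have hle : ∀ t : Fin 2 × Fin 2 × Fin 2,
      V (qf d x t.1) * V (qf d y t.2.1) * V (qf d z t.2.2) ≤ m := fun t => by
    by_cases ht : t = (i, j, k)
    · rw [ht]
    · exact (hmax t ht).le
  have hsq : ∀ e', V (ps d (seg x y z) e') ^ 2 =
      (V (qf d x (ta e').1) * V (qf d y (ta e').2.1) * V (qf d z (ta e').2.2)) *
        (V (qf d x (tb e').1) * V (qf d y (tb e').2.1) * V (qf d z (tb e').2.2)) := by
    intro e'
    rw [← map_pow, ps_sq]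
    simp only [map_mul]
  have he : V (ps d (seg x y z) e) = m := by
    have h3 := hsq e
    rw [hta, htb, ← sq] at h3
    exact (pow_left_inj₀ zero_le zero_le two_ne_zero).1 h3
  have hlt : ∀ e', e' ≠ e → V (ps d (seg x y z) e') < m := by
    intro e' he'
    have h3 : V (ps d (seg x y z) e') ^ 2 < m ^ 2 := by
      rw [hsq e', sq m]
      by_cases h4 : ta e' = (i, j, k)
      · have h5 : tb e' ≠ (i, j, k) := fun h5 => he' (huniq e' h4 h5)
        calc _ ≤ m * (V (qf d x (tb e').1) * V (qf d y (tb e').2.1) * V (qf d z (tb e').2.2)) :=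
              mul_le_mul' (hle _) le_rfl
          _ < m * m := mul_lt_mul_of_pos_left (hmax _ h5) (zero_lt_iff.2 hm0)
      · calc _ ≤ (V (qf d x (ta e').1) * V (qf d y (ta e').2.1) * V (qf d z (ta e').2.2)) * m :=
              mul_le_mul' le_rfl (hle _)
          _ < m * m := mul_lt_mul_of_pos_right (hmax _ h4) (zero_lt_iff.2 hm0)
    exact lt_of_pow_lt_pow_left₀ 2 zero_le h3
  have hsum : a e * ps d (seg x y z) e = -∑ e' ∈ Finset.univ.erase e,
      a e' * ps d (seg x y z) e' := by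
    rw [← Finset.add_sum_erase _ _ (Finset.mem_univ e)] at h0
    exact eq_neg_of_add_eq_zero_left h0
  have h3 : V (a e * ps d (seg x y z) e) = m := by
    rw [map_mul, h2 e he8, one_mul, he]
  have h4 : V (∑ e' ∈ Finset.univ.erase e, a e' * ps d (seg x y z) e') < m := by
    refine Valuation.map_sum_lt _ hm0 fun e' he' => ?_
    rw [map_mul]
    calc V (a e') * V (ps d (seg x y z) e') ≤ 1 * V (ps d (seg x y z) e') :=
          mul_le_mul' (h1 e') le_rfl
      _ = V (ps d (seg x y z) e') := one_mul _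
      _ < m := hlt e' (Finset.ne_of_mem_erase he')
  rw [hsum, Valuation.map_neg] at h3
  exact h4.ne h3

/-- The twists with rational points are finitely many. -/
theorem exists_twists {a : Fin 14 → K} (ha : ∀ e : Fin 14, (e : ℕ) < 8 → a e ≠ 0) :
    ∃ D : Finset K, (∀ d ∈ D, d ≠ 0) ∧ ∀ (d : K) (x y z : Fin 2 → K), d ≠ 0 → x ≠ 0 → y ≠ 0 →
      z ≠ 0 → ∑ e, a e * ps d (seg x y z) e = 0 → ∃ d0 ∈ D, ∃ t : K, t ≠ 0 ∧ d = d0 * t ^ 2 := by
  classical
  set S : Set (HeightOneSpectrum (𝓞 K)) :=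
    ⋃ e : Fin 14, (HeightOneSpectrum.Support (𝓞 K) (a e) ∪
      HeightOneSpectrum.Support (𝓞 K) (a e)⁻¹) with hS
  have hSf : S.Finite := Set.finite_iUnion fun e =>
    (HeightOneSpectrum.Support.finite (𝓞 K) (a e)).union
      (HeightOneSpectrum.Support.finite (𝓞 K) (a e)⁻¹)
  have hgood : ∀ v, v ∉ S → (∀ e, v.valuation K (a e) ≤ 1) ∧
      ∀ e : Fin 14, (e : ℕ) < 8 → v.valuation K (a e) = 1 := by
    intro v hv
    have h1 : ∀ e, v.valuation K (a e) ≤ 1 ∧ v.valuation K (a e)⁻¹ ≤ 1 := by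
      intro e
      rw [hS, Set.mem_iUnion] at hv
      push Not at hv
      have h2 := hv e
      rw [Set.mem_union, not_or] at h2
      exact ⟨not_lt.1 h2.1, not_lt.1 h2.2⟩
    refine ⟨fun e => (h1 e).1, fun e he => le_antisymm (h1 e).1 ?_⟩
    have h3 := (h1 e).2
    rw [map_inv₀] at h3
    have h4 : v.valuation K (a e) ≠ 0 := (Valuation.ne_zero_iff _).2 (ha e he)
    exact (inv_le_one₀ (zero_lt_iff.2 h4)).1 h3
  obtain ⟨M, f, hf⟩ := selmer K 2 (by norm_num)
  have : Finite S := hSf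
  let key : K → Fin M × (S → Bool) := fun d => (f d, fun v => decide ((2 : ℤ) ∣ ord v.1 d))
  let Adm : K → Prop := fun d => d ≠ 0 ∧ ∀ v, v ∉ S → (2 : ℤ) ∣ ord v d
  let rep : Fin M × (S → Bool) → K := fun q =>
    if h : ∃ d, Adm d ∧ key d = q then h.choose else 1
  refine ⟨(Set.finite_range rep).toFinset, ?_, ?_⟩
  · intro d hd
    rw [Set.Finite.mem_toFinset] at hd
    obtain ⟨q, rfl⟩ := hd
    simp only [rep]
    split_ifs with h
    · exact h.choose_spec.1.1
    · exact one_ne_zero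
  · intro d x y z hd hx hy hz h0
    have hadm : Adm d := ⟨hd, fun v hv =>
      even_ord v (hgood v hv).1 (hgood v hv).2 hd hx hy hz h0⟩
    have hex : ∃ d', Adm d' ∧ key d' = key d := ⟨d, hadm, rfl⟩
    have hrep : rep (key d) = hex.choose := by
      simp only [rep]
      rw [dif_pos hex]
    obtain ⟨hadm', hkey⟩ := hex.choose_spec
    rw [← hrep] at hadm' hkey
    refine ⟨rep (key d), by rw [Set.Finite.mem_toFinset]; exact ⟨_, rfl⟩, ?_⟩
    refine hf d (rep (key d)) hd hadm'.1 (fun v => ?_) (congrArg Prod.fst hkey).symm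
    by_cases hv : v ∈ S
    · have h1 : decide ((2 : ℤ) ∣ ord v (rep (key d))) = decide ((2 : ℤ) ∣ ord v d) :=
        congrFun (congrArg Prod.snd hkey) ⟨v, hv⟩
      rw [decide_eq_decide] at h1
      generalize ord v (rep (key d)) = r at h1 ⊢
      push_cast
      omega
    · have h1 := hadm.2 v hv
      have h2 := hadm'.2 v hv
      push_cast
      omega

end Pool.Agent.Enr
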