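import Mathlib
import Pool.Agent.Enr.Poly
import Pool.Agent.Enr.Val
import Pool.Agent.K3M.FIN

/-!
Quotients of surfaces of tridegree (2,2,2): local Zariski closures.
-/

namespace Pool.Agent.Enr

open MvPolynomial Topology Pool.Agent.MazurC Pool.Agent.MazurT Pool.Agent.MazurQ Pool.Agent.K3M

section Gen

variable {K : Type} [Field K]

/-- The rational points. -/
def YA (a : Fin 14 → K) : Set (Fin 14 → K) := {u | ∀ g ∈ enr a, eval u g = 0}

theorem mon_zero {R : Type*} [CommRing R] (y z : Fin 2 → R) : mon 0 y z = 0 := by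
  funext e
  fin_cases e <;> simp [mon]

theorem mon_smul {R : Type*} [CommRing R] (r : R) (x y z : Fin 2 → R) :
    mon (r • x) y z = r ^ 2 • mon x y z := by
  funext e
  fin_cases e <;> simp [mon] <;> ring

theorem ps_zero {R : Type*} [CommRing R] (d : R) : ps d (0 : Fin 8 → R) = 0 := by
  funext e
  simp [ps]

/-- Rational points of the image lift to a twist. -/
theorem exists_lift {a : Fin 14 → K} {u : Fin 14 → K} (hu : u ∈ YA a) (hu0 : u ≠ 0) :
    ∃ (c d : K) (x y z : Fin 2 → K), c ≠ 0 ∧ d ≠ 0 ∧ x ≠ 0 ∧ y ≠ 0 ∧ z ≠ 0 ∧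
      u = c • ps d (seg x y z) ∧ ∑ e, a e * ps d (seg x y z) e = 0 := by
  have hrel : Rel K u := by
    intro i j k l hijkl
    have h1 := hu (X i * X j - X k * X l) (Or.inl ⟨IsHomogeneous.sub
      ((isHomogeneous_X K i).mul (isHomogeneous_X K j))
      ((isHomogeneous_X K k).mul (isHomogeneous_X K l)), by
        intro x y z
        simp only [map_sub, map_mul, eval_X]
        rw [hijkl, sub_self]⟩)
    simp only [map_sub, map_mul, eval_X] at h1
    exact sub_eq_zero.1 h1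
  have hlin : ∑ e, a e * u e = 0 := by
    have h1 := hu _ (Or.inr rfl)
    have h2 := eval₂_lf (RingHom.id K) a u
    rw [← h1]
    exact h2.symm
  obtain ⟨c, d, x, y, z, hc, hd, hx, hy, hz, huc⟩ := rep_of_rel hrel hu0
  refine ⟨c, d, x, y, z, hc, hd, hx, hy, hz, huc, ?_⟩
  rw [huc] at hlin
  have h3 : c * ∑ e, a e * ps d (seg x y z) e = 0 := by
    rw [Finset.mul_sum, ← hlin]
    refine Finset.sum_congr rfl fun e _ => ?_
    rw [Pi.smul_apply, smul_eq_mul]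
    ring
  exact (mul_eq_zero.1 h3).resolve_left hc

/-- Over the algebraic closure a twisted value is a value of the even monomials. -/
theorem exists_geom (c d : K) (x y z : Fin 2 → K) :
    ∃ x' y' z' : Fin 2 → AlgebraicClosure K,
      (fun e => ac K ((c • ps d (seg x y z)) e)) = mon x' y' z' := by
  obtain ⟨s, hs⟩ := IsAlgClosed.exists_pow_nat_eq (ac K d) (n := 2) (by norm_num)
  obtain ⟨r, hr⟩ := IsAlgClosed.exists_pow_nat_eq (ac K c) (n := 2) (by norm_num)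
  refine ⟨r • ![ac K (x 0), s * ac K (x 1)], ![ac K (y 0), s * ac K (y 1)],
    ![ac K (z 0), s * ac K (z 1)], ?_⟩
  have h1 := ps_seg s (fun i => ac K (x i)) (fun i => ac K (y i)) (fun i => ac K (z i))
  have h2 : seg (fun i => ac K (x i)) (fun i => ac K (y i)) (fun i => ac K (z i))
      = fun l => ac K (seg x y z l) := by
    rw [← segp_one, ← segp_one, segp_map]
  rw [mon_smul, ← h1, h2, hs, hr, ps_map]
  funext e
  simp

theorem eval_of_idealY {a : Fin 14 → K} {f : MvPolynomial (Fin 14) K} (hf : f ∈ idealY a)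
    {u : Fin 14 → K} (hu : u ∈ YA a) (t : K) : eval (t • u) f = 0 := by
  have h0 : eval₂ (ac K) (fun e => ac K ((t • u) e)) f = 0 := by
    by_cases hu0 : u = 0
    · have h1 : (fun e => ac K ((t • u) e)) = mon 0 0 0 := by
        rw [mon_zero]
        funext e
        simp [hu0]
      rw [h1]
      refine hf 0 0 0 ?_
      rw [mon_zero]
      simp
    · obtain ⟨c, d, x, y, z, hc, hd, hx, hy, hz, huc, hsum⟩ := exists_lift hu hu0
      obtain ⟨x', y', z', h1⟩ := exists_geom (t * c) d x y z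
      have h2 : t • u = (t * c) • ps d (seg x y z) := by rw [huc, smul_smul]
      rw [h2, h1]
      refine hf x' y' z' ?_
      rw [← h1]
      have h3 : ∑ e, ac K (a e) * ac K (((t * c) • ps d (seg x y z)) e)
          = ac K ((t * c) * ∑ e, a e * ps d (seg x y z) e) := by
        rw [map_mul, map_sum, Finset.mul_sum]
        refine Finset.sum_congr rfl fun e _ => ?_
        rw [Pi.smul_apply, smul_eq_mul]
        simp only [map_mul]
        ring
      exact h3.trans (by rw [hsum, mul_zero, map_zero])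
  rw [eval₂_comp_gen] at h0
  exact (map_eq_zero (ac K)).1 h0

theorem YA_smul {a : Fin 14 → K} {u : Fin 14 → K} (hu : u ∈ YA a) (t : K) : t • u ∈ YA a := by
  intro g hg
  obtain ⟨n, hn0, hn⟩ := enr_hom hg
  rw [eval_smul_hom hn, hu g hg, mul_zero]

/-- The two systems of equations have the same rational zeros. -/
theorem YA_eq [Infinite K] (a : Fin 14 → K) : YA a = {u | ∀ g ∈ eqsY a, eval u g = 0} := by
  ext u
  constructor
  · intro hu g hg
    have := eval_of_idealY hg.1 hu 1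
    rwa [one_smul] at this
  · rintro hu g (⟨hg2, hg⟩ | hg)
    · exact hu g ⟨fun x y z _ => eval₂_mon_zero (ac K) hg x y z, 2, hg2⟩
    · refine hu g ⟨fun x y z h => ?_, 1, ?_⟩
      · rw [Set.mem_singleton_iff.1 hg]
        exact (eval₂_lf (ac K) a (mon x y z)).trans h
      · rw [Set.mem_singleton_iff.1 hg]
        exact lf_hom a

theorem localIdeal_eq_YA [Infinite K] {L : Type} [NontriviallyNormedField L] {σ : K →+* L}
    (a : Fin 14 → K) (x : Fin 14 → L) :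
    localIdeal σ (eqsY a) x = LI σ (YA a) x := by
  rw [YA_eq]
  exact localIdeal_eq_LI (n := 13) (eqsY a) x

theorem idealY_subset_LI {L : Type} [NontriviallyNormedField L] {σ : K →+* L}
    (a : Fin 14 → K) (x : Fin 14 → L) : idealY a ⊆ LI σ (YA a) x := by
  intro f hf
  exact ⟨Set.univ, Filter.univ_mem, fun y hy _ _ t => eval_of_idealY hf hy t⟩

theorem exists_seg_XA {a : Fin 14 → K} {d : K} {w : Fin 8 → K} (hw : w ∈ XA (gd a d))
    (hw0 : w ≠ 0) : ∃ x y z : Fin 2 → K, x ≠ 0 ∧ y ≠ 0 ∧ z ≠ 0 ∧ w = seg x y z :=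
  exists_seg (RingHom.id K) hw0 (fun p hp hpz => hw p (Or.inl ⟨hp, hpz⟩))

theorem seg_mem_XA {a : Fin 14 → K} {d : K} {x y z : Fin 2 → K}
    (h : ∑ e, a e * ps d (seg x y z) e = 0) : seg x y z ∈ XA (gd a d) := by
  rintro g (⟨_, hg⟩ | hg)
  · exact hg _ _ _
  · rw [Set.mem_singleton_iff.1 hg, eval_gd]; exact h

theorem ps_mem_YA [Infinite K] {a : Fin 14 → K} {d : K} {w : Fin 8 → K}
    (hw : w ∈ XA (gd a d)) : ps d w ∈ YA a := by
  by_cases hw0 : w = 0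
  · rw [hw0, ps_zero]
    intro g hg
    obtain ⟨n, hn0, hn⟩ := enr_hom hg
    have h1 := eval_smul_hom hn (0 : K) (0 : Fin 14 → K)
    rwa [smul_zero, zero_pow hn0, zero_mul] at h1
  · obtain ⟨x, y, z, hx, hy, hz, rfl⟩ := exists_seg_XA hw hw0
    rintro g (⟨_, hg⟩ | hg)
    · exact eval_ps_zero hg d x y z
    · have h1 := hw (gd a d) (Or.inr rfl)
      rw [eval_gd] at h1
      rw [Set.mem_singleton_iff.1 hg, ← h1]
      exact eval₂_lf (RingHom.id K) a (ps d (seg x y z))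

theorem ps_ne_zero {d : K} (hd : d ≠ 0) {w : Fin 8 → K} (hw : w ≠ 0) : ps d w ≠ 0 := by
  obtain ⟨l, hl⟩ := Function.ne_iff.1 hw
  have h1 : ∀ l : Fin 8, ∃ e : Fin 14, pa e = l ∧ pb e = l := by decide
  obtain ⟨e, h2, h3⟩ := h1 l
  refine Function.ne_iff.2 ⟨e, ?_⟩
  simp only [ps, h2, h3, Pi.zero_apply]
  exact mul_ne_zero (pow_ne_zero _ hd) (mul_ne_zero hl hl)

/-- If the pull-back to one twist vanishes on the twist, the polynomial vanishes on the image. -/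
theorem idealY_of_IX [Infinite K] {a : Fin 14 → K} {d : K} (hd : d ≠ 0)
    {f : MvPolynomial (Fin 14) K} (h : pull d f ∈ IX (gd a d)) : f ∈ idealY a := by
  intro x y z hxyz
  obtain ⟨s, hs⟩ := IsAlgClosed.exists_pow_nat_eq (ac K d) (n := 2) (by norm_num)
  have hs0 : s ≠ 0 := by
    rintro rfl
    have : ac K d = 0 := by rw [← hs]; simp
    exact hd ((map_eq_zero _).1 this)
  have h1 : ps (ac K d) (seg ![x 0, x 1 / s] ![y 0, y 1 / s] ![z 0, z 1 / s]) = mon x y z := by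
    rw [← hs, ps_seg]
    have e : ∀ x : Fin 2 → AlgebraicClosure K,
        (![(![x 0, x 1 / s] : Fin 2 → AlgebraicClosure K) 0,
          s * (![x 0, x 1 / s] : Fin 2 → AlgebraicClosure K) 1] :
            Fin 2 → AlgebraicClosure K) = x := by
      intro x
      funext i
      fin_cases i
      · simp
      · show s * (x 1 / s) = x 1
        field_simp
    rw [e, e, e]
  have h2 := h (seg ![x 0, x 1 / s] ![y 0, y 1 / s] ![z 0, z 1 / s]) (by
    rintro g (⟨_, hg⟩ | hg)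
    · exact eval₂_seg_zero (ac K) hg _ _ _
    · rw [Set.mem_singleton_iff.1 hg, eval₂_gd, h1]
      exact hxyz)
  rw [eval₂_pull, h1] at h2
  exact h2

/-- Pulling back local ideals. -/
theorem pull_mem_LI [Infinite K] {L : Type} [NontriviallyNormedField L] {σ : K →+* L}
    {a : Fin 14 → K} {d : K} (hd : d ≠ 0) {w0 : Fin 8 → K} {f : MvPolynomial (Fin 14) K}
    (h : f ∈ LI σ (YA a) (sv σ (ps d w0))) : pull d f ∈ LI σ (XA (gd a d)) (sv σ w0) := by
  obtain ⟨U, hU, hf⟩ := h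
  have hsv : ∀ w : Fin 8 → K, ps (σ d) (sv σ w) = sv σ (ps d w) := fun w => ps_map σ d w
  have hcont : Continuous fun w : Fin 8 → L => ps (σ d) w :=
    continuous_pi fun e => continuous_const.mul
      ((continuous_apply (pa e)).mul (continuous_apply (pb e)))
  refine ⟨(fun w : Fin 8 → L => ps (σ d) w) ⁻¹' U, ?_, ?_⟩
  · refine hcont.continuousAt ?_
    show U ∈ 𝓝 (ps (σ d) (sv σ w0))
    rw [hsv]
    exact hU
  · rintro w hw hw0 ⟨c, hc, hcU⟩ t
    rw [eval_pull, ps_smul]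
    refine hf (ps d w) (ps_mem_YA hw) (ps_ne_zero hd hw0) ⟨c ^ 2, pow_ne_zero 2 hc, ?_⟩ (t ^ 2)
    rw [← hsv, ← ps_smul]
    exact hcU

/-- No line of the three rulings. -/
def NLY (a : Fin 14 → K) : Prop :=
  ∀ x y : Fin 2 → AlgebraicClosure K, x ≠ 0 → y ≠ 0 →
    (∃ z, ∑ e, ac K (a e) * mon z x y e ≠ 0) ∧
    (∃ z, ∑ e, ac K (a e) * mon x z y e ≠ 0) ∧
    (∃ z, ∑ e, ac K (a e) * mon x y z e ≠ 0)

theorem NL_gd {a : Fin 14 → K} (ha : NLY a) {d : K} (hd : d ≠ 0) : NL (gd a d) := by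
  obtain ⟨s, hs⟩ := IsAlgClosed.exists_pow_nat_eq (ac K d) (n := 2) (by norm_num)
  have hs0 : s ≠ 0 := by
    rintro rfl
    have : ac K d = 0 := by rw [← hs]; simp
    exact hd ((map_eq_zero _).1 this)
  have hev : ∀ x y z : Fin 2 → AlgebraicClosure K, eval₂ (ac K) (seg x y z) (gd a d)
      = ∑ e, ac K (a e) * mon ![x 0, s * x 1] ![y 0, s * y 1] ![z 0, s * z 1] e := by
    intro x y z
    rw [eval₂_gd, ← hs, ps_seg]
  have hne : ∀ x : Fin 2 → AlgebraicClosure K, x ≠ 0 →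
      (![x 0, s * x 1] : Fin 2 → AlgebraicClosure K) ≠ 0 := by
    intro x hx h
    apply hx
    have h0 : x 0 = 0 := by simpa using congrFun h 0
    have h1 : x 1 = 0 := by
      have := congrFun h 1
      simpa [hs0] using this
    funext i
    fin_cases i
    · exact h0
    · exact h1
  have hback : ∀ x : Fin 2 → AlgebraicClosure K, ∃ x' : Fin 2 → AlgebraicClosure K,
      (![x' 0, s * x' 1] : Fin 2 → AlgebraicClosure K) = x := by
    intro x
    refine ⟨![x 0, x 1 / s], ?_⟩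
    funext i
    fin_cases i
    · simp
    · show s * (x 1 / s) = x 1
      field_simp
  have hX : ∀ x y : Fin 2 → AlgebraicClosure K, x ≠ 0 → y ≠ 0 →
      (∃ z, eval₂ (ac K) (seg z x y) (gd a d) ≠ 0) ∧
      (∃ z, eval₂ (ac K) (seg x z y) (gd a d) ≠ 0) ∧
      (∃ z, eval₂ (ac K) (seg x y z) (gd a d) ≠ 0) := by
    intro x y hx hy
    obtain ⟨⟨z1, h1⟩, ⟨z2, h2⟩, ⟨z3, h3⟩⟩ := ha _ _ (hne x hx) (hne y hy)
    obtain ⟨w1, hw1⟩ := hback z1
    obtain ⟨w2, hw2⟩ := hback z2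
    obtain ⟨w3, hw3⟩ := hback z3
    refine ⟨⟨w1, ?_⟩, ⟨w2, ?_⟩, ⟨w3, ?_⟩⟩
    · rw [hev, hw1]; exact h1
    · rw [hev, hw2]; exact h2
    · rw [hev, hw3]; exact h3
  intro π y z hy hz
  obtain ⟨⟨a, ha⟩, ⟨b, hb⟩, ⟨c, hc⟩⟩ := hX y z hy hz
  obtain ⟨⟨a', ha'⟩, ⟨b', hb'⟩, ⟨c', hc'⟩⟩ := hX z y hz hy
  have h6 : ∀ π : Equiv.Perm (Fin 3),
      (π.symm 0 = 0 ∧ π.symm 1 = 1 ∧ π.symm 2 = 2) ∨
      (π.symm 0 = 0 ∧ π.symm 1 = 2 ∧ π.symm 2 = 1) ∨
      (π.symm 0 = 1 ∧ π.symm 1 = 0 ∧ π.symm 2 = 2) ∨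
      (π.symm 0 = 2 ∧ π.symm 1 = 0 ∧ π.symm 2 = 1) ∨
      (π.symm 0 = 1 ∧ π.symm 1 = 2 ∧ π.symm 2 = 0) ∨
      (π.symm 0 = 2 ∧ π.symm 1 = 1 ∧ π.symm 2 = 0) := by decide
  rcases h6 π with h | h | h | h | h | h <;> obtain ⟨h0, h1, h2⟩ := h
  · exact ⟨a, by rw [segp_eq_seg, h0, h1, h2]; exact ha⟩
  · exact ⟨a', by rw [segp_eq_seg, h0, h1, h2]; exact ha'⟩
  · exact ⟨b, by rw [segp_eq_seg, h0, h1, h2]; exact hb⟩
  · exact ⟨b', by rw [segp_eq_seg, h0, h1, h2]; exact hb'⟩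
  · exact ⟨c, by rw [segp_eq_seg, h0, h1, h2]; exact hc⟩
  · exact ⟨c', by rw [segp_eq_seg, h0, h1, h2]; exact hc'⟩

/-- A local ideal if all rational points nearby lie on finitely many lines. -/
theorem LI_finite_lines' {n : ℕ} {L : Type} [NontriviallyNormedField L] {σ : K →+* L}
    {A : Set (Fin n → K)} {E : Finset (Fin n → K)} {x : Fin n → L} {U : Set (Fin n → L)}
    (hU : U ∈ 𝓝 x) (h : ∀ y ∈ A, y ≠ 0 → Near σ U y → ∃ e ∈ E, ∃ t : K, y = t • e) :
    ∃ S : Finset (Fin n → K), S ⊆ E ∧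
      LI σ A x = {f : MvPolynomial (Fin n) K | ∀ e ∈ S, ∀ t : K, eval (t • e) f = 0} := by
  classical
  refine ⟨E.filter fun e => ∀ V ∈ 𝓝 x, ∃ t : K, t • e ∈ A ∧ t • e ≠ 0 ∧ Near σ V (t • e),
    Finset.filter_subset _ _, ?_⟩
  ext f
  constructor
  · rintro ⟨V, hV, hf⟩ e he s
    obtain ⟨t, h1, h2, h3⟩ := (Finset.mem_filter.1 he).2 V hV
    have ht : t ≠ 0 := by
      rintro rfl; exact h2 (zero_smul _ _)
    have h4 := hf _ h1 h2 h3 (s / t)
    rwa [smul_smul, div_mul_cancel₀ s ht] at h4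
  · intro hf
    have hV : ∀ e ∈ E, ∃ V ∈ 𝓝 x, (∀ W ∈ 𝓝 x, ∃ t : K, t • e ∈ A ∧ t • e ≠ 0 ∧
        Near σ W (t • e)) ∨ ∀ t : K, t • e ∈ A → t • e ≠ 0 → ¬ Near σ V (t • e) := by
      intro e _
      by_cases h1 : ∀ W ∈ 𝓝 x, ∃ t : K, t • e ∈ A ∧ t • e ≠ 0 ∧ Near σ W (t • e)
      · exact ⟨Set.univ, Filter.univ_mem, Or.inl h1⟩
      · push Not at h1
        obtain ⟨W, hW, h2⟩ := h1
        exact ⟨W, hW, Or.inr h2⟩
    choose! V hV1 hV2 using hV
    refine ⟨U ∩ ⋂ e ∈ E, V e, Filter.inter_mem hU ((Filter.biInter_finset_mem E).2 hV1), ?_⟩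
    intro y hy hy0 hn s
    obtain ⟨e, he, t, rfl⟩ := h y hy hy0 (hn.mono Set.inter_subset_left)
    rcases hV2 e he with h1 | h1
    · rw [smul_smul]
      exact hf e (Finset.mem_filter.2 ⟨he, h1⟩) _
    · exact absurd (hn.mono (Set.inter_subset_right.trans (Set.biInter_subset_of_mem he)))
        (h1 t hy hy0)

end Gen

section Final

variable {K : Type} [Field K] [NumberField K]

theorem final_enr {a : Fin 14 → K} (ha : ∀ e : Fin 14, (e : ℕ) < 8 → a e ≠ 0) (hNL : NLY a) :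
    ∃ E : Finset (Fin 14 → K), (∀ e ∈ E, e ≠ 0 ∧ e ∈ YA a) ∧
      ∀ (L : Type) [NontriviallyNormedField L] [ProperSpace L]
      (σ : K →+* L), DenseRange σ →
      (∀ x : Fin 14 → L,
        (∀ U ∈ 𝓝 x, ∃ y ∈ YA a, y ≠ 0 ∧ Near σ U y ∧ ∀ e ∈ E, ∀ t : K, y ≠ t • e) →
        localIdeal σ (eqsY a) x = idealY a) ∧
      ∀ x : Fin 14 → L, localIdeal σ (eqsY a) x = idealY a ∨ ∃ S ⊆ E,
        localIdeal σ (eqsY a) x = {f | ∀ e ∈ S, ∀ t : K, eval (t • e) f = 0} := by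
  classical
  obtain ⟨D, hD0, hD⟩ := exists_twists ha
  have hfin : ∀ d ∈ D, ∃ E : Finset (Fin 8 → K), (∀ e ∈ E, e ≠ 0 ∧ e ∈ XA (gd a d)) ∧
      ∀ (L : Type) [NontriviallyNormedField L] [ProperSpace L]
      (σ : K →+* L), DenseRange σ →
      ∀ x : Fin 8 → L,
        (∀ U ∈ 𝓝 x, ∃ y ∈ XA (gd a d), y ≠ 0 ∧ Near σ U y ∧ ∀ e ∈ E, ∀ t : K, y ≠ t • e) →
        localIdeal σ (surf (gd a d)) x = IX (gd a d) := by
    intro d hd
    obtain ⟨E, hE0, hE⟩ := final (gd_hom a d) (NL_gd hNL (hD0 d hd))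
    exact ⟨E, hE0, fun L _ _ σ hσ => (hE L σ hσ).1⟩
  choose! F hF0 hF using hfin
  refine ⟨D.biUnion fun d => (F d).image (ps d), ?_, ?_⟩
  · intro e he
    rw [Finset.mem_biUnion] at he
    obtain ⟨d, hd, he⟩ := he
    obtain ⟨w, hw, rfl⟩ := Finset.mem_image.1 he
    exact ⟨ps_ne_zero (hD0 d hd) (hF0 d hd w hw).1, ps_mem_YA (hF0 d hd w hw).2⟩
  intro L _ _ σ hσ
  set E : Finset (Fin 14 → K) := D.biUnion fun d => (F d).image (ps d) with hE
  have key : ∀ y ∈ YA a, y ≠ 0 → (∀ e ∈ E, ∀ t : K, y ≠ t • e) →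
      LI σ (YA a) (sv σ y) = idealY a := by
    intro y hy hy0 hyE
    refine Set.Subset.antisymm ?_ (idealY_subset_LI a _)
    intro f hf
    obtain ⟨c, d', x1, x2, x3, hc, hd', h1, h2, h3, hyx, hsum⟩ := exists_lift hy hy0
    obtain ⟨d, hd, t, ht, hdt⟩ := hD d' x1 x2 x3 hd' h1 h2 h3 hsum
    have hd0 := hD0 d hd
    set w : Fin 8 → K := seg ![x1 0, t * x1 1] ![x2 0, t * x2 1] ![x3 0, t * x3 1] with hw
    have hps : ps d' (seg x1 x2 x3) = ps d w := by rw [hdt, ps_seg_sq]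
    rw [hps] at hyx hsum
    have hwX : w ∈ XA (gd a d) := seg_mem_XA hsum
    have hw0 : w ≠ 0 := by
      intro h0
      rw [h0, ps_zero, smul_zero] at hyx
      exact hy0 hyx
    have hwE : ∀ e ∈ F d, ∀ r : K, w ≠ r • e := by
      intro e he r hwr
      refine hyE (ps d e) (Finset.mem_biUnion.2 ⟨d, hd, Finset.mem_image_of_mem _ he⟩)
        (c * r ^ 2) ?_
      rw [hyx, hwr, ps_smul, smul_smul]
    have h4 : localIdeal σ (surf (gd a d)) (sv σ w) = IX (gd a d) :=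
      hF d hd L σ hσ (sv σ w) fun U hU => ⟨w, hwX, hw0,
        ⟨1, one_ne_zero, by rw [one_smul]; exact mem_of_mem_nhds hU⟩, hwE⟩
    rw [localIdeal_eq_XA] at h4
    have h5 : f ∈ LI σ (YA a) (sv σ (ps d w)) := by
      refine LI_smul_le (YA a) (sv σ (ps d w)) (c := σ c) (by simpa using hc) ?_
      rw [← sv_smul, ← hyx]
      exact hf
    have h6 := pull_mem_LI hd0 h5
    rw [h4] at h6
    exact idealY_of_IX hd0 h6
  have hlim : ∀ x : Fin 14 → L,
      (∀ U ∈ 𝓝 x, ∃ y ∈ YA a, y ≠ 0 ∧ Near σ U y ∧ ∀ e ∈ E, ∀ t : K, y ≠ t • e) →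
      localIdeal σ (eqsY a) x = idealY a := by
    intro x hx
    rw [localIdeal_eq_YA]
    refine Set.Subset.antisymm ?_ (idealY_subset_LI a x)
    rintro f ⟨U, hU, hf⟩
    obtain ⟨V, hVU, hVo, hxV⟩ := mem_nhds_iff.1 hU
    obtain ⟨y, hy, hy0, ⟨r, hr, hrV⟩, hyE⟩ := hx V (hVo.mem_nhds hxV)
    have h4 : f ∈ LI σ (YA a) (r • sv σ y) := ⟨V, hVo.mem_nhds hrV,
      fun v hv hv0 hn t => hf v hv hv0 (hn.mono hVU) t⟩
    have h5 := LI_smul_le _ _ hr h4
    rwa [key y hy hy0 hyE] at h5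
  refine ⟨hlim, ?_⟩
  intro x
  by_cases hx : ∀ U ∈ 𝓝 x, ∃ y ∈ YA a, y ≠ 0 ∧ Near σ U y ∧ ∀ e ∈ E, ∀ t : K, y ≠ t • e
  · exact Or.inl (hlim x hx)
  · right
    push Not at hx
    obtain ⟨U, hU, hx⟩ := hx
    obtain ⟨S, hS, hS'⟩ := LI_finite_lines' (σ := σ) (A := YA a) (E := E) hU
      (fun y hy hy0 hn => by
        obtain ⟨e, he, t, h1⟩ := hx y hy hy0 hn
        exact ⟨e, he, t, h1⟩)
    exact ⟨S, hS, by rw [localIdeal_eq_YA]; exact hS'⟩

end Final

end Pool.Agent.Enr
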